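import Pool.Agent.Run7.h684.Smp.Cnt

/-!
# Large values of one sign of the partial sums at the points of a sparse set
-/

set_option autoImplicit false

open MeasureTheory Filter Topology Set

namespace Run7.h684.OS

open Run7.h684.Smp

noncomputable section

variable {a : ℕ → ℂ} {F : ℂ → ℂ} {Θ : ℝ}

/-- nonnegative Lipschitz functions below the absolute value -/
structure Phi (φ : ℂ → ℝ) : Prop where
  nn : ∀ z, 0 ≤ φ z
  le : ∀ z, φ z ≤ ‖z‖
  lip : ∀ z w, φ z ≤ φ w + ‖z - w‖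

theorem Phi.cont {φ : ℂ → ℝ} (hφ : Phi φ) : Continuous φ := by
  have : LipschitzWith 1 φ := by
    refine LipschitzWith.of_dist_le_mul fun z w => ?_
    rw [NNReal.coe_one, one_mul, Real.dist_eq, dist_eq_norm, abs_le]
    have h1 := hφ.lip z w
    have h2 := hφ.lip w z
    rw [norm_sub_rev w z] at h2
    constructor <;> linarith
  exact this.continuous

theorem phi_sign {s : ℝ} (hs : s = 1 ∨ s = -1) : Phi (fun z : ℂ => max (s * z.re) 0) where
  nn := fun z => le_max_right _ _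
  le := by
    intro z
    have h1 := Complex.abs_re_le_norm z
    rw [abs_le] at h1
    refine max_le ?_ (norm_nonneg _)
    rcases hs with rfl | rfl <;> linarith
  lip := by
    intro z w
    have h1 := Complex.abs_re_le_norm (z - w)
    rw [Complex.sub_re, abs_le] at h1
    refine max_le ?_ (add_nonneg (le_max_right _ _) (norm_nonneg _))
    have h2 : s * w.re ≤ max (s * w.re) 0 := le_max_left _ _
    rcases hs with rfl | rfl <;> linarith

variable {φ : ℂ → ℝ}

theorem phi_ii (hφ : Phi φ) (h : Dat a F Θ) (x y : ℝ) :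
    IntervalIntegrable (fun v => φ (PS a v)) volume x y := by
  refine (PS_ii h x y).mono_fun' (hφ.cont.measurable.comp (measurable_PS a)).aestronglyMeasurable ?_
  refine Eventually.of_forall fun u => ?_
  simp only
  rw [Real.norm_eq_abs, abs_of_nonneg (hφ.nn _)]
  exact hφ.le _

/-- a near maximum -/
theorem exists_near_sup (hφ : Phi φ) (h : Dat a F Θ) {x y : ℝ} (hxy : x ≤ y) :
    ∃ q : ℝ, x ≤ q ∧ q ≤ y ∧ ∀ v, x ≤ v → v ≤ y → φ (E a v) ≤ φ (E a q) + 1 := by
  obtain ⟨C, hN⟩ := h.nice (show Θ < Θ + 1 by linarith)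
  have hC0 := hN.C_nonneg
  set S : Set ℝ := (fun v => φ (E a v)) '' Icc x y with hS
  have hne : S.Nonempty := ⟨_, x, ⟨le_rfl, hxy⟩, rfl⟩
  have hb : BddAbove S := by
    refine ⟨C * Real.exp ((Θ + 1) * y), ?_⟩
    rintro z ⟨v, hv, rfl⟩
    refine (hφ.le _).trans ((hN.bound v).trans ?_)
    have h0 := h.h0
    have := hv.2
    have h1 : Real.exp ((Θ + 1) * v) ≤ Real.exp ((Θ + 1) * y) :=
      Real.exp_le_exp.2 (mul_le_mul_of_nonneg_left this (by linarith))
    exact mul_le_mul_of_nonneg_left h1 hC0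
  obtain ⟨z, ⟨q, hq, rfl⟩, h1⟩ := exists_lt_of_lt_csSup hne (show sSup S - 1 < sSup S by linarith)
  refine ⟨q, hq.1, hq.2, fun v hv1 hv2 => ?_⟩
  have h2 : φ (E a v) ≤ sSup S := le_csSup hb ⟨v, ⟨hv1, hv2⟩, rfl⟩
  simp only at h1
  linarith

/-- the integral over the window, against the near maxima over the cells -/
theorem window_le (hφ : Phi φ) (h : Dat a F Θ) {U δ : ℝ} {n : ℕ} (hδ : 0 < δ) (hδ1 : δ ≤ 1) (q : ℕ → ℝ)
    (hq : ∀ i < n, ∀ v, U + i * δ ≤ v → v ≤ U + (i + 1) * δ → φ (E a v) ≤ φ (E a (q i)) + 1) :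
    ∫ y in (Real.exp U)..(Real.exp (U + n * δ)), φ (PS a y) ≤
      2 * Real.exp (U + n * δ) * δ * (∑ i ∈ Finset.range n, φ (E a (q i)) + n) := by
  have h1 := intervalIntegral.sum_integral_adjacent_intervals (f := fun y => φ (PS a y)) (μ := volume)
    (a := fun i : ℕ => Real.exp (U + i * δ)) (n := n) (fun k _ => phi_ii hφ h _ _)
  simp only [Nat.cast_zero, zero_mul, add_zero] at h1
  rw [← h1]
  have h2 : ∀ i ∈ Finset.range n, ∫ y in (Real.exp (U + i * δ))..(Real.exp (U + ((i + 1 : ℕ) : ℝ) * δ)),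
      φ (PS a y) ≤ 2 * Real.exp (U + n * δ) * δ * (φ (E a (q i)) + 1) := by
    intro i hi
    rw [Finset.mem_range] at hi
    push_cast
    have hle : U + i * δ ≤ U + (i + 1) * δ := by nlinarith
    have hexp : Real.exp (U + i * δ) ≤ Real.exp (U + (i + 1) * δ) := Real.exp_le_exp.2 hle
    have h3 : ∀ y ∈ Icc (Real.exp (U + i * δ)) (Real.exp (U + (i + 1) * δ)),
        φ (PS a y) ≤ φ (E a (q i)) + 1 := by
      intro y hy
      have hy0 : 0 < y := (Real.exp_pos _).trans_le hy.1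
      have e1 : PS a y = E a (Real.log y) := by
        unfold E
        rw [Real.exp_log hy0]
      rw [e1]
      refine hq i hi _ ?_ ?_
      · rw [Real.le_log_iff_exp_le hy0]; exact hy.1
      · rw [Real.log_le_iff_le_exp hy0]; exact hy.2
    calc ∫ y in (Real.exp (U + i * δ))..(Real.exp (U + (i + 1) * δ)), φ (PS a y)
        ≤ ∫ y in (Real.exp (U + i * δ))..(Real.exp (U + (i + 1) * δ)), (φ (E a (q i)) + 1) :=
          intervalIntegral.integral_mono_on hexp (phi_ii hφ h _ _) intervalIntegrable_const h3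
      _ = (Real.exp (U + (i + 1) * δ) - Real.exp (U + i * δ)) * (φ (E a (q i)) + 1) := by
          rw [intervalIntegral.integral_const, smul_eq_mul]
      _ ≤ (2 * Real.exp (U + n * δ) * δ) * (φ (E a (q i)) + 1) := by
          refine mul_le_mul_of_nonneg_right ?_ (add_nonneg (hφ.nn _) zero_le_one)
          have e1 : Real.exp (U + (i + 1) * δ) - Real.exp (U + i * δ) =
              Real.exp (U + i * δ) * (Real.exp δ - 1) := by
            rw [mul_sub, ← Real.exp_add, mul_one]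
            ring_nf
          rw [e1]
          have h4 : Real.exp δ - 1 ≤ 2 * δ := by
            have h5 := Real.abs_exp_sub_one_le (show |δ| ≤ 1 by rwa [abs_of_pos hδ])
            rw [abs_of_pos hδ] at h5
            exact (le_abs_self _).trans h5
          have h6 : Real.exp (U + i * δ) ≤ Real.exp (U + n * δ) := by
            apply Real.exp_le_exp.2
            have : (i : ℝ) ≤ n := by exact_mod_cast hi.le
            nlinarith
          have h7 : 0 ≤ Real.exp δ - 1 := by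
            have := Real.one_le_exp hδ.le
            linarith
          calc Real.exp (U + i * δ) * (Real.exp δ - 1) ≤ Real.exp (U + n * δ) * (2 * δ) :=
                mul_le_mul h6 h4 h7 (Real.exp_pos _).le
            _ = _ := by ring
  refine (Finset.sum_le_sum h2).trans (le_of_eq ?_)
  rw [← Finset.mul_sum, Finset.sum_add_distrib, Finset.sum_const, Finset.card_range, nsmul_eq_mul,
    mul_one]

/-- **Large values at the points of a sparse set.** -/
theorem main_phi (hφ : Phi φ) (h : Dat a F Θ) (hΘ : 1 / 2 ≤ Θ)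
    (Y : Set ℝ) {η C0 c θ ε : ℝ} (hη : 0 < η) (hη1 : η ≤ 1) (hc : 0 < c)
    (low : ∀ θ' : ℝ, θ' < Θ → ∀ᶠ x : ℝ in atTop, x ^ (1 + θ') < ∫ y in x..(x + c * x), φ (PS a y))
    (hY : ∀ᶠ x : ℝ in atTop, ∃ y ∈ Y, x ≤ y ∧ y ≤ x + C0 * x ^ (1 - η))
    (hθ0 : 0 ≤ θ) (hθ : θ < Θ) (hε : 0 < ε) :
    ∀ᶠ X : ℝ in atTop, ∃ T : Finset ℝ, (∀ y ∈ T, y ∈ Y ∧ X ≤ y ∧ y ≤ X + c * X ∧
      2 * y ^ θ < φ (PS a y)) ∧ X ^ (η - ε) ≤ T.card := by
  classical
  -- the constant of the gaps may be taken to be at least one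
  set D : ℝ := max C0 1 with hD
  have hD1 : 1 ≤ D := le_max_right _ _
  have hD0 : 0 < D := by linarith
  obtain ⟨X0, hX0⟩ := eventually_atTop.1 hY
  set L : ℝ := Real.log (1 + c) with hL
  have hL0 : 0 < L := Real.log_pos (by linarith)
  -- the small parameter
  obtain ⟨κ, hκ0, hκ1, hκ2, hκ3, hκ4⟩ : ∃ κ : ℝ, 0 < κ ∧ κ ≤ 1 / 16 ∧ κ ≤ η / 16 ∧ κ ≤ ε / 4 ∧
      κ ≤ (Θ - θ) / 4 := by
    refine ⟨min (min (1 / 16) (η / 16)) (min (ε / 4) ((Θ - θ) / 4)), ?_, ?_, ?_, ?_, ?_⟩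
    · have : 0 < (Θ - θ) / 4 := by linarith
      positivity
    · exact (min_le_left _ _).trans (min_le_left _ _)
    · exact (min_le_left _ _).trans (min_le_right _ _)
    · exact (min_le_right _ _).trans (min_le_left _ _)
    · exact (min_le_right _ _).trans (min_le_right _ _)
  obtain ⟨C, hC0, hosc⟩ := h.osc (σ := Θ + κ) (ε := κ) (by linarith) hκ0 (by linarith)
  obtain ⟨C3, hC30, hC3⟩ := h.sum' (σ := Θ + κ) (by linarith)
  set C2 : ℝ := (Real.exp (L + 1)) ^ (Θ + 2 * κ) with hC2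
  have hC20 : 0 < C2 := by positivity
  set K0 : ℝ := 2 * (1 + c) * L with hK0
  have hK00 : 0 < K0 := by positivity
  set c1 : ℝ := L / (2 * D) with hc1
  have hc10 : 0 < c1 := by positivity
  set C4 : ℝ := C * C2 / Real.sqrt c1 with hC4
  have hC40 : 0 ≤ C4 := div_nonneg (mul_nonneg hC0.le hC20.le) (Real.sqrt_nonneg _)
  set C5 : ℝ := (C3 + 1) * (1 + c) ^ (Θ + κ) with hC5
  have hC50 : 0 < C5 := by positivity
  have t1 := ev_rpow (8 * K0) (show (0 : ℝ) < Θ - κ by linarith)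
  have t2 := ev_rpow (8 * K0 * C) (show κ < Θ - κ by linarith)
  have t3 := ev_rpow (8 * K0 * C4) (show Θ - 5 * κ < Θ - κ by linarith)
  have t4 := ev_rpow (4 * K0 * (2 * (1 + c) ^ θ)) (show θ < Θ - κ by linarith)
  have t5 := ev_rpow (4 * K0 * C5 / c1) (show η - 3 * κ < η - 2 * κ by linarith)
  have t6 : ∀ᶠ X : ℝ in atTop, 2 * (1 + L) * D / L ≤ X ^ η :=
    (tendsto_rpow_atTop hη).eventually_ge_atTop _
  filter_upwards [low (Θ - κ) (by linarith), t1, t2, t3, t4, t5, t6, ev_log (2 + L) hκ0,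
    eventually_ge_atTop X0, eventually_ge_atTop 1] with X a1 a2 a3 a4 a5 a6 a7 a8 a9 a10
  have hX : 0 < X := by linarith
  set n : ℕ := ⌊L * X ^ η / D⌋₊ with hn
  have hXη : 0 < X ^ η := Real.rpow_pos_of_pos hX _
  have hnle : (n : ℝ) ≤ L * X ^ η / D := Nat.floor_le (by positivity)
  have hnlt : L * X ^ η / D < n + 1 := Nat.lt_floor_add_one _
  have hbig : 2 * (1 + L) ≤ L * X ^ η / D := by
    rw [div_le_iff₀ hL0] at a7
    rw [le_div_iff₀ hD0]
    linarith
  have hnL : 1 + L ≤ n := by linarith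
  have hn1 : (1 : ℝ) ≤ n := by linarith
  have hn0 : 0 < n := by
    have : (0 : ℝ) < n := by linarith
    exact_mod_cast this
  have hnR : (0 : ℝ) < n := by linarith
  have hnc : c1 * X ^ η ≤ n := by
    have e1 : c1 * X ^ η = (L * X ^ η / D) / 2 := by rw [hc1]; field_simp
    rw [e1]
    linarith
  set δ : ℝ := L / n with hδ
  have hδ0 : 0 < δ := by positivity
  have hδ1 : δ ≤ 1 := by
    rw [hδ, div_le_one hnR]
    linarith
  have hnδ : (n : ℝ) * δ = L := by rw [hδ]; field_simp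
  have hδD : D * X ^ (-η) ≤ δ := by
    rw [hδ, le_div_iff₀ hnR, Real.rpow_neg hX.le]
    calc D * (X ^ η)⁻¹ * n ≤ D * (X ^ η)⁻¹ * (L * X ^ η / D) := by gcongr
      _ = L := by field_simp
  set U : ℝ := Real.log X with hU
  have hU0 : 0 ≤ U := Real.log_nonneg a10
  have hexpU : Real.exp U = X := Real.exp_log hX
  have hexpn : Real.exp (U + n * δ) = X + c * X := by
    rw [hnδ, Real.exp_add, hexpU, hL, Real.exp_log (by linarith)]
    ring
  set V : ℝ := U + (n + 1) * δ with hV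
  have hVle : V ≤ U + (L + 1) := by
    rw [hV, add_mul, hnδ]
    linarith
  have hVU : U ≤ V := by
    rw [hV]
    have : 0 < ((n : ℝ) + 1) * δ := by positivity
    linarith
  have hexpV : Real.exp (-V) ≤ δ := by
    refine le_trans ?_ hδD
    calc Real.exp (-V) ≤ Real.exp (-U) := Real.exp_le_exp.2 (by linarith)
      _ = X ^ (-(1 : ℝ)) := by
          rw [Real.rpow_neg_one, Real.exp_neg, hexpU]
      _ ≤ X ^ (-η) := Real.rpow_le_rpow_of_exponent_le a10 (by linarith)
      _ ≤ D * X ^ (-η) := le_mul_of_one_le_left (Real.rpow_nonneg hX.le _) hD1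
  -- the samples
  have hsamp : ∀ i : ℕ, ∃ y ∈ Y, Real.exp (U + i * δ) ≤ y ∧ y < Real.exp (U + (i + 1) * δ) := by
    intro i
    set x : ℝ := Real.exp (U + i * δ) with hx
    have hxX : X ≤ x := by
      rw [hx, ← hexpU]
      apply Real.exp_le_exp.2
      have : 0 ≤ (i : ℝ) * δ := by positivity
      linarith
    have hx0 : 0 < x := Real.exp_pos _
    obtain ⟨y, hy, hy1, hy2⟩ := hX0 x (a9.trans hxX)
    refine ⟨y, hy, hy1, hy2.trans_lt ?_⟩
    have e1 : Real.exp (U + (i + 1) * δ) = x * Real.exp δ := by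
      rw [hx, ← Real.exp_add]
      ring_nf
    have e2 : x ^ (1 - η) = x * x ^ (-η) := by
      rw [sub_eq_add_neg, Real.rpow_add hx0, Real.rpow_one]
    rw [e1, e2]
    have h1 : x ^ (-η) ≤ X ^ (-η) := Real.rpow_le_rpow_of_nonpos hX hxX (by linarith)
    have h2 : C0 * x ^ (-η) ≤ δ := by
      calc C0 * x ^ (-η) ≤ D * x ^ (-η) :=
            mul_le_mul_of_nonneg_right (le_max_left _ _) (Real.rpow_nonneg hx0.le _)
        _ ≤ D * X ^ (-η) := mul_le_mul_of_nonneg_left h1 hD0.le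
        _ ≤ δ := hδD
    have h3 : 1 + δ < Real.exp δ := by
      have := Real.add_one_lt_exp hδ0.ne'
      linarith
    calc x + C0 * (x * x ^ (-η)) = x * (1 + C0 * x ^ (-η)) := by ring
      _ ≤ x * (1 + δ) := by gcongr
      _ < x * Real.exp δ := by gcongr
  choose y hyY hy1 hy2 using hsamp
  have hy0 : ∀ i, 0 < y i := fun i => (Real.exp_pos _).trans_le (hy1 i)
  have hmono : StrictMono y := by
    refine strictMono_nat_of_lt_succ fun i => (hy2 i).trans_le ?_
    have := hy1 (i + 1)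
    push_cast at this
    exact this
  have hp : ∀ i < n, U + i * δ ≤ Real.log (y i) ∧ Real.log (y i) ≤ U + (i + 1) * δ := by
    intro i _
    constructor
    · rw [Real.le_log_iff_exp_le (hy0 i)]; exact hy1 i
    · rw [Real.log_le_iff_le_exp (hy0 i)]; exact (hy2 i).le
  -- the near maxima
  have hsup : ∀ i : ℕ, ∃ q : ℝ, U + i * δ ≤ q ∧ q ≤ U + (i + 1) * δ ∧ ∀ v, U + i * δ ≤ v →
      v ≤ U + (i + 1) * δ → φ (E a v) ≤ φ (E a q) + 1 := fun i =>
    exists_near_sup hφ h (by rw [add_mul, one_mul]; linarith)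
  choose q hq1 hq2 hq3 using hsup
  have hwin := window_le hφ h hδ0 hδ1 q (U := U) (n := n) (fun i _ v hv1 hv2 => hq3 i v hv1 hv2)
  have hos := hosc U δ n hU0 hδ0 hδ1 hn0 hexpV (fun i => Real.log (y i)) q hp
    (fun i _ => ⟨hq1 i, hq2 i⟩)
  rw [hexpU, hexpn] at hwin
  set Sq : ℝ := ∑ i ∈ Finset.range n, φ (E a (q i)) with hSq
  set Sp : ℝ := ∑ i ∈ Finset.range n, φ (PS a (y i)) with hSp
  have hEp : ∀ i, E a (Real.log (y i)) = PS a (y i) := by
    intro i
    unfold E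
    rw [Real.exp_log (hy0 i)]
  have hSqSp : Sq ≤ Sp + ∑ i ∈ Finset.range n, ‖E a (q i) - E a (Real.log (y i))‖ := by
    rw [hSq, hSp, ← Finset.sum_add_distrib]
    refine Finset.sum_le_sum fun i _ => ?_
    rw [← hEp i]
    exact hφ.lip _ _
  -- the lower bound for `Sq`
  have hlow : n * X ^ (Θ - κ) < K0 * (Sq + n) := by
    have h1 := a1.trans_le hwin
    rw [Real.rpow_add hX, Real.rpow_one] at h1
    have h2 : 2 * (X + c * X) * δ * (Sq + n) = X * ((K0 * (Sq + n)) / n) := by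
      rw [hδ, hK0]
      field_simp
    rw [h2] at h1
    have h3 := lt_of_mul_lt_mul_left h1 hX.le
    rw [lt_div_iff₀ hnR] at h3
    linarith
  -- the oscillation
  have hV1 : 1 + V ≤ X ^ κ := by
    have : 1 + V ≤ 2 + L + U := by linarith
    exact this.trans a8
  have hexpσ : Real.exp ((Θ + κ + κ) * V) ≤ C2 * X ^ (Θ + 2 * κ) := by
    have h1 : Real.exp ((Θ + κ + κ) * V) ≤ Real.exp ((Θ + 2 * κ) * (U + (L + 1))) := by
      apply Real.exp_le_exp.2
      have h1 : 0 ≤ Θ + 2 * κ := by linarith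
      have e1 : Θ + κ + κ = Θ + 2 * κ := by ring
      rw [e1]
      exact mul_le_mul_of_nonneg_left hVle h1
    refine h1.trans (le_of_eq ?_)
    rw [mul_add, Real.exp_add, mul_comm (Θ + 2 * κ) U, Real.exp_mul, hexpU, hC2,
      mul_comm (Θ + 2 * κ) (L + 1), Real.exp_mul, mul_comm]
  have hsq : Real.sqrt c1 * X ^ (η / 2) ≤ Real.sqrt n := by
    have e1 : X ^ (η / 2) = Real.sqrt (X ^ η) := by
      rw [Real.sqrt_eq_rpow, ← Real.rpow_mul hX.le]
      congr 1
      ring
    rw [e1, ← Real.sqrt_mul hc10.le]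
    exact Real.sqrt_le_sqrt hnc
  have hosc2 : ∑ i ∈ Finset.range n, ‖E a (q i) - E a (Real.log (y i))‖ ≤
      n * (C * X ^ κ) + n * (C4 * X ^ (Θ - 5 * κ)) := by
    refine hos.trans ?_
    have h1 : C * (1 + V) * (n + Real.exp ((Θ + κ + κ) * V) * Real.sqrt n) ≤
        C * X ^ κ * (n + C2 * X ^ (Θ + 2 * κ) * Real.sqrt n) := by
      gcongr
    refine h1.trans ?_
    have h2 : C * X ^ κ * (n + C2 * X ^ (Θ + 2 * κ) * Real.sqrt n) =
        n * (C * X ^ κ) + C * C2 * (X ^ κ * X ^ (Θ + 2 * κ)) * Real.sqrt n := by ring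
    rw [h2]
    refine add_le_add le_rfl ?_
    have h3 : X ^ κ * X ^ (Θ + 2 * κ) ≤ X ^ (Θ - 5 * κ) * X ^ (η / 2) := by
      rw [← Real.rpow_add hX, ← Real.rpow_add hX]
      exact Real.rpow_le_rpow_of_exponent_le a10 (by linarith)
    have h4 : C * C2 * (X ^ κ * X ^ (Θ + 2 * κ)) * Real.sqrt n ≤
        C * C2 * (X ^ (Θ - 5 * κ) * X ^ (η / 2)) * Real.sqrt n := by gcongr
    refine h4.trans ?_
    have h5 : Real.sqrt n * Real.sqrt n = n := Real.mul_self_sqrt hnR.le
    have hs1 : 0 < Real.sqrt c1 := Real.sqrt_pos.2 hc10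
    calc C * C2 * (X ^ (Θ - 5 * κ) * X ^ (η / 2)) * Real.sqrt n
        = (C4 * X ^ (Θ - 5 * κ)) * ((Real.sqrt c1 * X ^ (η / 2)) * Real.sqrt n) := by
          rw [hC4]
          field_simp
      _ ≤ (C4 * X ^ (Θ - 5 * κ)) * (Real.sqrt n * Real.sqrt n) := by
          have h6 : 0 ≤ C4 * X ^ (Θ - 5 * κ) := mul_nonneg hC40 (Real.rpow_nonneg hX.le _)
          exact mul_le_mul_of_nonneg_left (mul_le_mul_of_nonneg_right hsq (Real.sqrt_nonneg _)) h6
      _ = _ := by rw [h5]; ring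
  -- the lower bound for `Sp`
  have hSplow : n * X ^ (Θ - κ) < 2 * K0 * Sp := by
    rw [Real.rpow_zero, mul_one] at a2
    have h1 : K0 * Sq ≤ K0 * (Sp + (n * (C * X ^ κ) + n * (C4 * X ^ (Θ - 5 * κ)))) :=
      mul_le_mul_of_nonneg_left (by linarith) hK00.le
    have h2 : n * (8 * K0) ≤ n * X ^ (Θ - κ) := mul_le_mul_of_nonneg_left a2 hnR.le
    have h3 : n * (8 * K0 * C * X ^ κ) ≤ n * X ^ (Θ - κ) := mul_le_mul_of_nonneg_left a3 hnR.le
    have h4 : n * (8 * K0 * C4 * X ^ (Θ - 5 * κ)) ≤ n * X ^ (Θ - κ) :=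
      mul_le_mul_of_nonneg_left a4 hnR.le
    have e1 : K0 * (Sq + n) = K0 * Sq + (n * (8 * K0)) / 8 := by ring
    have e2 : K0 * (Sp + (n * (C * X ^ κ) + n * (C4 * X ^ (Θ - 5 * κ)))) = K0 * Sp +
        (n * (8 * K0 * C * X ^ κ)) / 8 + (n * (8 * K0 * C4 * X ^ (Θ - 5 * κ))) / 8 := by ring
    have hpos : 0 < n * X ^ (Θ - κ) := mul_pos hnR (Real.rpow_pos_of_pos hX _)
    rw [e1] at hlow
    rw [e2] at h1
    linarith
  -- counting
  set good : Finset ℕ := (Finset.range n).filter (fun i => 2 * (y i) ^ θ < φ (PS a (y i))) with hgood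
  have hyX : ∀ i < n, X ≤ y i ∧ y i ≤ X + c * X := by
    intro i hi
    constructor
    · refine le_trans ?_ (hy1 i)
      rw [← hexpU]
      apply Real.exp_le_exp.2
      have : 0 ≤ (i : ℝ) * δ := by positivity
      linarith
    · refine (hy2 i).le.trans ?_
      rw [← hexpn]
      apply Real.exp_le_exp.2
      have h1 : (i : ℝ) + 1 ≤ n := by exact_mod_cast hi
      have h2 := mul_le_mul_of_nonneg_right h1 hδ0.le
      linarith
  have hXc : X + c * X = (1 + c) * X := by ring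
  have hSpup : Sp ≤ good.card * (C5 * X ^ (Θ + κ)) + n * (2 * (1 + c) ^ θ * X ^ θ) := by
    have h1 : ∀ i ∈ Finset.range n, φ (PS a (y i)) ≤
        (if 2 * (y i) ^ θ < φ (PS a (y i)) then C5 * X ^ (Θ + κ) else 0) + 2 * (1 + c) ^ θ * X ^ θ := by
      intro i hi
      rw [Finset.mem_range] at hi
      obtain ⟨g1, g2⟩ := hyX i hi
      have hpos : 0 ≤ 2 * (1 + c) ^ θ * X ^ θ := by positivity
      split_ifs with hg
      · have h2 := (hφ.le _).trans (hC3 (y i) (a10.trans g1))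
        have h3 : (y i) ^ (Θ + κ) ≤ (1 + c) ^ (Θ + κ) * X ^ (Θ + κ) := by
          rw [← Real.mul_rpow (by linarith) hX.le, ← hXc]
          exact Real.rpow_le_rpow (hy0 i).le g2 (by linarith)
        have h4 : C3 * (y i) ^ (Θ + κ) ≤ C5 * X ^ (Θ + κ) := by
          rw [hC5]
          calc C3 * (y i) ^ (Θ + κ) ≤ (C3 + 1) * ((1 + c) ^ (Θ + κ) * X ^ (Θ + κ)) := by
                refine mul_le_mul (by linarith) h3 (Real.rpow_nonneg (hy0 i).le _) (by linarith)
            _ = _ := by ring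
        linarith
      · have h2 : (y i) ^ θ ≤ (1 + c) ^ θ * X ^ θ := by
          rw [← Real.mul_rpow (by linarith) hX.le, ← hXc]
          exact Real.rpow_le_rpow (hy0 i).le g2 hθ0
        have h3 := not_lt.1 hg
        calc φ (PS a (y i)) ≤ 2 * (y i) ^ θ := h3
          _ ≤ 0 + 2 * (1 + c) ^ θ * X ^ θ := by linarith
    rw [hSp]
    refine (Finset.sum_le_sum h1).trans (le_of_eq ?_)
    rw [Finset.sum_add_distrib, Finset.sum_const, Finset.card_range, nsmul_eq_mul,
      ← Finset.sum_filter, Finset.sum_const, nsmul_eq_mul]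
  have hcard : X ^ (η - ε) ≤ good.card := by
    have h1 : n * (4 * K0 * (2 * (1 + c) ^ θ) * X ^ θ) ≤ n * X ^ (Θ - κ) :=
      mul_le_mul_of_nonneg_left a5 hnR.le
    have h2 : 2 * K0 * Sp ≤ 2 * K0 * (good.card * (C5 * X ^ (Θ + κ)) + n * (2 * (1 + c) ^ θ * X ^ θ)) :=
      mul_le_mul_of_nonneg_left hSpup (by positivity)
    have h3 : n * X ^ (Θ - κ) < 4 * K0 * C5 * (good.card * X ^ (Θ + κ)) := by
      have e1 : 2 * K0 * (good.card * (C5 * X ^ (Θ + κ)) + n * (2 * (1 + c) ^ θ * X ^ θ)) =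
          (4 * K0 * C5 * (good.card * X ^ (Θ + κ))) / 2 +
            (n * (4 * K0 * (2 * (1 + c) ^ θ) * X ^ θ)) / 2 := by ring
      rw [e1] at h2
      linarith
    have h4 : X ^ (Θ - κ) = X ^ (-(2 * κ)) * X ^ (Θ + κ) := by
      rw [← Real.rpow_add hX]
      congr 1
      ring
    have hpos : 0 < X ^ (Θ + κ) := Real.rpow_pos_of_pos hX _
    have h5 : n * X ^ (-(2 * κ)) < 4 * K0 * C5 * good.card := by
      rw [h4] at h3
      have e1 : (n : ℝ) * (X ^ (-(2 * κ)) * X ^ (Θ + κ)) = (n * X ^ (-(2 * κ))) * X ^ (Θ + κ) := by ring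
      have e2 : 4 * K0 * C5 * ((good.card : ℝ) * X ^ (Θ + κ)) =
        (4 * K0 * C5 * good.card) * X ^ (Θ + κ) := by ring
      rw [e1, e2] at h3
      exact lt_of_mul_lt_mul_right h3 hpos.le
    have h6 : c1 * X ^ (η - 2 * κ) ≤ n * X ^ (-(2 * κ)) := by
      have e1 : X ^ (η - 2 * κ) = X ^ η * X ^ (-(2 * κ)) := by
        rw [← Real.rpow_add hX]
        congr 1
      rw [e1, ← mul_assoc]
      exact mul_le_mul_of_nonneg_right hnc (Real.rpow_nonneg hX.le _)
    have h7 : c1 * (4 * K0 * C5 / c1 * X ^ (η - 3 * κ)) ≤ c1 * X ^ (η - 2 * κ) :=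
      mul_le_mul_of_nonneg_left a6 hc10.le
    have h8 : c1 * (4 * K0 * C5 / c1 * X ^ (η - 3 * κ)) = 4 * K0 * C5 * X ^ (η - 3 * κ) := by
      field_simp
    rw [h8] at h7
    have h9 : 4 * K0 * C5 * X ^ (η - 3 * κ) < 4 * K0 * C5 * good.card := by linarith
    have h10 : X ^ (η - 3 * κ) < good.card := lt_of_mul_lt_mul_left h9 (by positivity)
    refine le_trans ?_ h10.le
    exact Real.rpow_le_rpow_of_exponent_le a10 (by linarith)
  refine ⟨good.image y, ?_, ?_⟩
  · intro z hz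
    rw [Finset.mem_image] at hz
    obtain ⟨i, hi, rfl⟩ := hz
    rw [hgood, Finset.mem_filter, Finset.mem_range] at hi
    exact ⟨hyY i, (hyX i hi.1).1, (hyX i hi.1).2, hi.2⟩
  · rw [Finset.card_image_of_injective _ hmono.injective]
    exact hcard

end

end Run7.h684.OS
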