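import Pool.Agent.Run7.h684.OS.La

/-!
# The equivalences
-/

set_option autoImplicit false

open MeasureTheory Filter Topology Set
open Pool.Agent.W190 (SF rh_free)
open Pool.Agent.N739.OW (Inp inp_mu inp_la muR hsum hsum_small)

namespace Run7.h684.OS

open Run7.h684.Smp

noncomputable section

/-- at least `N` points `y` of `Y` in `[X, A X]` with `s f(y) > y^τ` -/
def Many (s : ℝ) (f : ℝ → ℝ) (Y : Set ℝ) (τ A X N : ℝ) : Prop :=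
  ∃ T : Finset ℝ, (∀ y ∈ T, y ∈ Y ∧ X ≤ y ∧ y ≤ A * X ∧ y ^ τ < s * f y) ∧ N ≤ T.card

variable {a : ℕ → ℝ} {Y : Set ℝ} {η C0 s : ℝ}

theorem Src.many (h : Src a) (hη : 0 < η) (hη1 : η ≤ 1)
    (hY : ∀ᶠ x : ℝ in atTop, ∃ y ∈ Y, x ≤ y ∧ y ≤ x + C0 * x ^ (1 - η)) (hs : s = 1 ∨ s = -1)
    {σ A : ℝ} (h1 : 1 / 2 < σ) (h2 : σ < 1) (hA1 : 1 < A) (hA : Real.pi * hsum σ < Real.log A)
    (hσ : ∃ z : ℂ, riemannZeta z = 0 ∧ σ < z.re) {θ : ℝ}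
    (hθ : ∃ z : ℂ, riemannZeta z = 0 ∧ θ < z.re) {ε : ℝ} (hε : 0 < ε) :
    ∀ᶠ X : ℝ in atTop, Many s (SF a) Y θ A X (X ^ (η - ε)) := by
  have hmax : ∃ z : ℂ, riemannZeta z = 0 ∧ max θ 0 < z.re := by
    obtain ⟨z, hz, h3⟩ := hσ
    obtain ⟨w, hw, h4⟩ := hθ
    rcases le_total θ 0 with h5 | h5
    · rw [max_eq_right h5]
      exact ⟨z, hz, by linarith⟩
    · rw [max_eq_left h5]
      exact ⟨w, hw, h4⟩
  have key := h.one Y hη hη1 hY h1 h2 hA1 hA hσ (le_max_right θ 0) hmax hε hs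
  filter_upwards [key, eventually_ge_atTop 1] with X hX hX1
  obtain ⟨T, hT1, hT2⟩ := hX
  refine ⟨T, fun y hy => ?_, hT2⟩
  obtain ⟨k1, k2, k3, k4⟩ := hT1 y hy
  exact ⟨k1, k2, k3, lt_of_le_of_lt (Real.rpow_le_rpow_of_exponent_le (by linarith) (le_max_left _ _)) k4⟩

/-- an eventual bound excludes large values -/
theorem not_many {f : ℝ → ℝ} {τ A : ℝ} (h : ∀ᶠ y : ℝ in atTop, y ∈ Y → s * f y ≤ y ^ τ) :
    ∀ᶠ X : ℝ in atTop, ∀ N : ℝ, 0 < N → ¬ Many s f Y τ A X N := by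
  obtain ⟨y0, hy0⟩ := eventually_atTop.1 h
  filter_upwards [eventually_ge_atTop y0] with X hX N hN
  rintro ⟨T, h1, h2⟩
  have h3 : 0 < T.card := by exact_mod_cast hN.trans_le h2
  obtain ⟨y, hy⟩ := Finset.card_pos.1 h3
  obtain ⟨g1, g2, _, g4⟩ := h1 y hy
  exact absurd (hy0 y (hX.trans g2) g1) (not_le.2 g4)

theorem Src.upper (h : Src a) {θ : ℝ} (h0 : 1 / 2 ≤ θ) (hz : ∀ z : ℂ, θ < z.re → riemannZeta z ≠ 0)
    (hs : s = 1 ∨ s = -1) {ε : ℝ} (hε : 0 < ε) : ∀ᶠ y : ℝ in atTop, s * SF a y ≤ y ^ (θ + ε) := by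
  obtain ⟨C, hC⟩ := h.inp.up θ (θ + ε / 2) h0 hz (by linarith)
  have h3 := ev_rpow C (show θ + ε / 2 < θ + ε by linarith)
  filter_upwards [h3, eventually_ge_atTop 1] with y g1 g2
  refine le_trans ?_ ((hC y g2).trans g1)
  rcases hs with rfl | rfl
  · rw [one_mul]; exact le_abs_self _
  · rw [neg_one_mul]; exact neg_le_abs _

theorem hsum_nonneg (σ : ℝ) : 0 ≤ hsum σ :=
  tsum_nonneg fun ρ => div_nonneg (Nat.cast_nonneg _) ρ.2.2.2.le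

theorem Src.tfae (h : Src a) (hη : 0 < η) (hη1 : η ≤ 1)
    (hY : ∀ᶠ x : ℝ in atTop, ∃ y ∈ Y, x ≤ y ∧ y ≤ x + C0 * x ^ (1 - η)) (hs : s = 1 ∨ s = -1)
    {θ : ℝ} (h0 : 1 / 2 ≤ θ) :
    [∀ z : ℂ, θ < z.re → riemannZeta z ≠ 0,
      ∀ ε : ℝ, 0 < ε → ∀ᶠ y : ℝ in atTop, y ∈ Y → s * SF a y ≤ y ^ (θ + ε),
      ∀ A ε : ℝ, 1 < A → 0 < ε → ∃ δ : ℝ, 0 < δ ∧
        ∃ᶠ X : ℝ in atTop, ¬ Many s (SF a) Y (θ + ε) A X (X ^ (η - δ))].TFAE := by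
  tfae_have 1 → 2 := by
    intro h1 ε hε
    filter_upwards [h.upper h0 h1 hs hε] with y hy _ using hy
  tfae_have 2 → 3 := by
    intro h1 A ε _ hε
    refine ⟨1, one_pos, Eventually.frequently ?_⟩
    filter_upwards [not_many (A := A) (h1 ε hε), eventually_gt_atTop 0] with X hX hX0
    exact hX _ (Real.rpow_pos_of_pos hX0 _)
  tfae_have 3 → 1 := by
    intro h1 z hz h2
    have hz1 := Pool.Agent.N739.OW.re_lt_one h2
    set σ : ℝ := (θ + z.re) / 2 with hσ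
    have hσ1 : θ < σ := by rw [hσ]; linarith
    have hσ2 : σ < z.re := by rw [hσ]; linarith
    set A : ℝ := Real.exp (Real.pi * hsum σ + 1) with hA
    have hA1 : 1 < A := by
      rw [hA, Real.one_lt_exp_iff]
      have := mul_nonneg Real.pi_pos.le (hsum_nonneg σ)
      linarith
    obtain ⟨δ, hδ, h3⟩ := h1 A ((z.re - θ) / 2) hA1 (by linarith)
    have h4 := h.many (σ := σ) (A := A) (θ := θ + (z.re - θ) / 2) (ε := δ) hη hη1 hY hs (by linarith)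
      (by linarith) hA1 (by rw [hA, Real.log_exp]; linarith) ⟨z, h2, hσ2⟩ ⟨z, h2, by linarith⟩ hδ
    obtain ⟨X, hX1, hX2⟩ := (h3.and_eventually h4).exists
    exact hX1 hX2
  tfae_finish

/-- for one fixed window ratio -/
theorem Src.fixed (h : Src a) (hη : 0 < η) (hη1 : η ≤ 1)
    (hY : ∀ᶠ x : ℝ in atTop, ∃ y ∈ Y, x ≤ y ∧ y ≤ x + C0 * x ^ (1 - η)) (hs : s = 1 ∨ s = -1)
    {θ A : ℝ} (h1 : 1 / 2 < θ) (h2 : θ < 1) (hA1 : 1 < A) (hA : Real.pi * hsum θ < Real.log A) :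
    (∀ z : ℂ, θ < z.re → riemannZeta z ≠ 0) ↔
      ∀ ε : ℝ, 0 < ε → ∃ δ : ℝ, 0 < δ ∧
        ∃ᶠ X : ℝ in atTop, ¬ Many s (SF a) Y (θ + ε) A X (X ^ (η - δ)) := by
  constructor
  · intro h3 ε hε
    refine ⟨1, one_pos, Eventually.frequently ?_⟩
    have h4 : ∀ᶠ y : ℝ in atTop, y ∈ Y → s * SF a y ≤ y ^ (θ + ε) := by
      filter_upwards [h.upper h1.le h3 hs hε] with y hy _ using hy
    filter_upwards [not_many (A := A) h4, eventually_gt_atTop 0] with X hX hX0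
    exact hX _ (Real.rpow_pos_of_pos hX0 _)
  · intro h3 z hz h4
    obtain ⟨δ, hδ, h5⟩ := h3 ((z.re - θ) / 2) (by linarith)
    have h6 := h.many (σ := θ) (A := A) (θ := θ + (z.re - θ) / 2) (ε := δ) hη hη1 hY hs h1 h2 hA1 hA
      ⟨z, h4, hz⟩ ⟨z, h4, by linarith⟩ hδ
    obtain ⟨X, hX1, hX2⟩ := (h5.and_eventually h6).exists
    exact hX1 hX2

/-- the criterion for a zero-free half-plane -/
theorem Src.quasi (h : Src a) (hη : 0 < η) (hη1 : η ≤ 1)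
    (hY : ∀ᶠ x : ℝ in atTop, ∃ y ∈ Y, x ≤ y ∧ y ≤ x + C0 * x ^ (1 - η)) (hs : s = 1 ∨ s = -1) :
    [∃ σ₀ : ℝ, σ₀ < 1 ∧ ∀ z : ℂ, σ₀ < z.re → riemannZeta z ≠ 0,
      ∃ τ : ℝ, τ < 1 ∧ ∀ᶠ y : ℝ in atTop, y ∈ Y → s * SF a y ≤ y ^ τ,
      ∃ A τ δ : ℝ, 1 < A ∧ τ < 1 ∧ 0 < δ ∧
        ∃ᶠ X : ℝ in atTop, ¬ Many s (SF a) Y τ A X (X ^ (η - δ))].TFAE := by
  tfae_have 1 → 2 := by
    rintro ⟨σ₀, h1, h2⟩
    have h3 : ∀ z : ℂ, max σ₀ (1 / 2) < z.re → riemannZeta z ≠ 0 := fun z hz =>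
      h2 z ((le_max_left _ _).trans_lt hz)
    have h4 : max σ₀ (1 / 2) < 1 := max_lt h1 (by norm_num)
    refine ⟨max σ₀ (1 / 2) + (1 - max σ₀ (1 / 2)) / 2, by linarith, ?_⟩
    filter_upwards [h.upper (le_max_right _ _) h3 hs (show 0 < (1 - max σ₀ (1 / 2)) / 2 by linarith)]
      with y hy _ using hy
  tfae_have 2 → 3 := by
    rintro ⟨τ, h1, h2⟩
    refine ⟨2, τ, 1, by norm_num, h1, one_pos, Eventually.frequently ?_⟩
    filter_upwards [not_many (A := 2) h2, eventually_gt_atTop 0] with X hX hX0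
    exact hX _ (Real.rpow_pos_of_pos hX0 _)
  tfae_have 3 → 1 := by
    rintro ⟨A, τ, δ, hA, hτ, hδ, h1⟩
    have hlog : 0 < Real.log A := Real.log_pos hA
    obtain ⟨σ₁, g1, g2, g3⟩ := hsum_small (η := Real.log A / Real.pi) (div_pos hlog Real.pi_pos)
    set σ : ℝ := max σ₁ τ with hσ
    have hσ1 : σ < 1 := max_lt g2 hτ
    refine ⟨σ, hσ1, fun z hz h0 => ?_⟩
    have h5 : Real.pi * hsum σ < Real.log A := by
      have := g3 σ (le_max_left _ _) hσ1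
      rw [lt_div_iff₀ Real.pi_pos] at this
      linarith
    have h6 := h.many (σ := σ) (A := A) (θ := τ) (ε := δ) hη hη1 hY hs
      (lt_of_lt_of_le g1 (le_max_left _ _)) hσ1 hA h5
      ⟨z, h0, hz⟩ ⟨z, h0, (le_max_right _ _).trans_lt hz⟩ hδ
    obtain ⟨X, hX1, hX2⟩ := (h1.and_eventually h6).exists
    exact hX1 hX2
  tfae_finish

end

end Run7.h684.OS
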