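import Pool.Agent.Run7.h684.Smp.Inst
import Pool.Agent.N739.OW.Lam
import Pool.Agent.Run7.h684.OS.Cnt

/-!
# One-sided large values at the points of a sparse set: the functions `M` and `L`
-/

set_option autoImplicit false

open MeasureTheory Filter Topology Set
open Pool.Agent.H295R2 (Zs Zs_eq fz)
open Pool.Agent.R303.SW (laR laR_abs LS_la liou_bound zeta_bd)
open Pool.Agent.W190 (SF)
open Pool.Agent.N739.OW (Inp inp_mu inp_la muR hsum)

namespace Run7.h684.OS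

open Run7.h684.Smp

noncomputable section

/-- real coefficients as complex numbers -/
def reC (a : ℕ → ℝ) (n : ℕ) : ℂ := ((a n : ℝ) : ℂ)

theorem PS_reC (a : ℕ → ℝ) (y : ℝ) : PS (reC a) y = ((SF a y : ℝ) : ℂ) := by
  unfold PS reC SF
  push_cast
  rfl

/-- the Dirichlet series of the Liouville function -/
def Fla (s : ℂ) : ℂ := fz s * riemannZeta (2 * s)

theorem dat_la {Θ : ℝ} (h0 : 1 / 2 ≤ Θ) (hz : ∀ s : ℂ, Θ < s.re → riemannZeta s ≠ 0) :
    Dat (reC laR) Fla Θ where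
  h0 := by linarith
  coe := by
    intro n
    unfold reC
    rw [Complex.norm_real, Real.norm_eq_abs]
    have h2 : 0 ≤ Real.log n := Real.log_natCast_nonneg n
    have h3 := laR_abs n
    linarith
  ser := by
    intro s hs
    have h1 : s ≠ 1 := by
      rintro rfl
      norm_num at hs
    have h2 := LS_la hs
    have h3 : riemannZeta s ≠ 0 := riemannZeta_ne_zero_of_one_le_re hs.le
    have h4 : fz s * riemannZeta s = 1 := by
      unfold fz
      rw [← Zs_eq h1]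
      have h5 : s - 1 ≠ 0 := sub_ne_zero.2 h1
      field_simp
    have h6 : LSeries (reC laR) s = LSeries (fun n => ((laR n : ℝ) : ℂ)) s := rfl
    rw [h6]
    unfold Fla
    rw [← h2]
    linear_combination (-LSeries (fun n => ((laR n : ℝ) : ℂ)) s) * h4
  dif := by
    intro s hs
    have hne : (2 * s) ≠ 1 := by
      intro h
      have h1 := congrArg Complex.re h
      rw [Complex.mul_re] at h1
      simp at h1
      linarith
    exact (Pool.Agent.H295R2.fz_differentiableAt (Zs_free hz s hs)).mul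
      ((differentiableAt_riemannZeta hne).comp s (by fun_prop))
  sum := by
    intro σ hσ hσ1
    obtain ⟨C, hC⟩ := liou_bound h0 hz σ hσ
    refine ⟨C, fun y hy => ?_⟩
    rw [PS_reC, Complex.norm_real, Real.norm_eq_abs]
    exact hC y hy
  gro := by
    intro σ ε hσ hσ1 hε
    obtain ⟨C, hC0, hC⟩ := Pool.Agent.H295R2.fz_bound (by linarith) (Zs_free hz) hσ hε
    refine ⟨C * ∑' n : ℕ, 1 / ((n : ℝ) + 1) ^ (2 * σ), fun t => ?_⟩
    have h1 := hC ((σ : ℂ) + t * Complex.I) (by simp) (by simp; linarith)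
    have h2 := zeta_bd (σ := 2 * σ) (by linarith) (z := 2 * ((σ : ℂ) + t * Complex.I)) (by simp)
    unfold Fla
    rw [norm_mul]
    have h3 : ((σ : ℂ) + t * Complex.I).im = t := by simp
    rw [h3] at h1
    calc ‖fz ((σ : ℂ) + t * Complex.I)‖ * ‖riemannZeta (2 * ((σ : ℂ) + t * Complex.I))‖
        ≤ (C * (1 + |t|) ^ ε) * ∑' n : ℕ, 1 / ((n : ℝ) + 1) ^ (2 * σ) := by
          refine mul_le_mul h1 h2 (norm_nonneg _) ?_
          have : 0 ≤ (1 + |t|) ^ ε := Real.rpow_nonneg (by linarith [abs_nonneg t]) _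
          exact mul_nonneg hC0.le this
      _ = _ := by ring

theorem dat_mu {Θ : ℝ} (h0 : 1 / 2 ≤ Θ) (hz : ∀ s : ℂ, Θ < s.re → riemannZeta s ≠ 0) :
    Dat (reC muR) fz Θ := by
  have h : reC muR = mobC := by
    funext n
    unfold reC mobC muR
    push_cast
    rfl
  rw [h]
  exact dat_mob h0 hz

/-- the input for the one-sided theorem -/
structure Src (a : ℕ → ℝ) : Prop where
  inp : Inp a
  dat : ∀ Θ : ℝ, 1 / 2 ≤ Θ → (∀ s : ℂ, Θ < s.re → riemannZeta s ≠ 0) → ∃ F : ℂ → ℂ, Dat (reC a) F Θ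

theorem src_la : Src laR := ⟨inp_la, fun _ h0 hz => ⟨Fla, dat_la h0 hz⟩⟩

theorem src_mu : Src muR := ⟨inp_mu, fun _ h0 hz => ⟨fz, dat_mu h0 hz⟩⟩

/-- **Large values of one sign at the points of a sparse set.** -/
theorem Src.one {a : ℕ → ℝ} (h : Src a) (Y : Set ℝ) {η C0 : ℝ} (hη : 0 < η) (hη1 : η ≤ 1)
    (hY : ∀ᶠ x : ℝ in atTop, ∃ y ∈ Y, x ≤ y ∧ y ≤ x + C0 * x ^ (1 - η))
    {σ A : ℝ} (h1 : 1 / 2 < σ) (h2 : σ < 1) (hA1 : 1 < A) (hA : Real.pi * hsum σ < Real.log A)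
    (hσ : ∃ s : ℂ, riemannZeta s = 0 ∧ σ < s.re) {θ : ℝ} (hθ0 : 0 ≤ θ)
    (hθ : ∃ s : ℂ, riemannZeta s = 0 ∧ θ < s.re) {ε : ℝ} (hε : 0 < ε) {s : ℝ} (hs : s = 1 ∨ s = -1) :
    ∀ᶠ X : ℝ in atTop, ∃ T : Finset ℝ, (∀ y ∈ T, y ∈ Y ∧ X ≤ y ∧ y ≤ A * X ∧ y ^ θ < s * SF a y) ∧
      X ^ (η - ε) ≤ T.card := by
  have hmax : ∃ z : ℂ, riemannZeta z = 0 ∧ max σ θ < z.re := by
    rcases le_total σ θ with h3 | h3
    · rwa [max_eq_right h3]
    · rwa [max_eq_left h3]
  obtain ⟨Θ, g1, g2, g3, g4⟩ := exists_sup hmax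
  have g5 : σ < Θ := (le_max_left _ _).trans_lt g1
  have g6 : θ < Θ := (le_max_right _ _).trans_lt g1
  obtain ⟨F, hF⟩ := h.dat Θ (by linarith) g3
  have hii : ∀ y : ℝ, max (s * (PS (reC a) y).re) 0 = max (s * SF a y) 0 := by
    intro y
    rw [PS_reC, Complex.ofReal_re]
  have low : ∀ θ' : ℝ, θ' < Θ → ∀ᶠ x : ℝ in atTop,
      x ^ (1 + θ') < ∫ y in x..(x + (A - 1) * x), max (s * (PS (reC a) y).re) 0 := by
    intro θ' hθ'
    obtain ⟨ρ, hρ0, hρ1⟩ := g4 (max σ θ') (max_lt g5 hθ')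
    have h3 : σ < ρ.re := (le_max_left _ _).trans_lt hρ1
    have h4 : θ' < ρ.re := (le_max_right _ _).trans_lt hρ1
    have h5 := h.inp.one h1 h2 (by linarith) hA hρ0 h3 (show 0 < (ρ.re - θ') / 2 by linarith) hs
    filter_upwards [h5, eventually_gt_atTop 1] with x hx hx1
    simp_rw [hii]
    have e1 : x + (A - 1) * x = A * x := by ring
    rw [e1]
    refine lt_of_lt_of_le ?_ hx
    exact Real.rpow_lt_rpow_of_exponent_lt hx1 (by linarith)
  have key := main_phi (phi_sign hs) hF (by linarith) Y hη hη1 (show 0 < A - 1 by linarith) low hY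
    hθ0 g6 hε
  filter_upwards [key, eventually_ge_atTop 1] with X hX hX1
  obtain ⟨T, hT1, hT2⟩ := hX
  refine ⟨T, fun y hy => ?_, hT2⟩
  obtain ⟨k1, k2, k3, k4⟩ := hT1 y hy
  refine ⟨k1, k2, by linarith, ?_⟩
  rw [hii] at k4
  have k5 : 1 ≤ y ^ θ := Real.one_le_rpow (by linarith) hθ0
  rcases max_choice (s * SF a y) 0 with h6 | h6
  · rw [h6] at k4
    linarith
  · rw [h6] at k4
    linarith

end

end Run7.h684.OS
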